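import Pool.Agent.Helper20.EP.Spec2

/-!
# EP, part GEN: the generic group
-/

set_option autoImplicit false

namespace Pool.Agent.Helper74.EP

open Pool.Agent.Helper20.EP
open Finset
open scoped Classical

/-- A least stable set is constant up to few exceptions. -/
lemma least_const {α : Type} [Fintype α] (one : α) (P : Finset α → ℤ → Prop) (S : Finset ℤ) (E : ℕ)
    (h : ∀ Y, (S.filter fun t => P Y t).card ≤ E ∨ (S.filter fun t => ¬ P Y t).card ≤ E)
    (X : ℤ → Finset α) (h1 : ∀ t, P (X t) t) (h2 : ∀ t, one ∈ X t)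
    (h3 : ∀ t Y, P Y t → one ∈ Y → X t ⊆ Y) :
    ∃ Y₀ : Finset α, ∀ B : Finset ℤ, B ⊆ S → (∀ t ∈ B, X t ≠ Y₀) →
      B.card ≤ Fintype.card (Finset α) * E := by
  set A : Finset α → Prop := fun Y => (S.filter fun t => ¬ P Y t).card ≤ E with hA
  refine ⟨univ.filter fun σ => ∀ Y, A Y → one ∈ Y → σ ∈ Y, fun B hBS hB => ?_⟩
  have hsub : B ⊆
      (univ : Finset (Finset α)).biUnion fun Y => S.filter fun t => ¬ (P Y t ↔ A Y) := by
    intro t ht
    rw [mem_biUnion]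
    by_contra hcon
    have hiff : ∀ Y, P Y t ↔ A Y := by
      intro Y
      by_contra h4
      exact hcon ⟨Y, mem_univ _, mem_filter.2 ⟨hBS ht, h4⟩⟩
    apply hB t ht
    ext σ
    rw [mem_filter]
    constructor
    · intro hσ
      refine ⟨mem_univ _, fun Y hY h1Y => ?_⟩
      exact h3 t Y ((hiff Y).2 hY) h1Y hσ
    · rintro ⟨-, hσ⟩
      exact hσ (X t) ((hiff _).1 (h1 t)) (h2 t)
  refine (card_le_card hsub).trans (card_biUnion_le.trans ?_)
  refine (Finset.sum_le_card_nsmul _ _ E ?_).trans ?_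
  · intro Y _
    by_cases hY : A Y
    · refine (card_le_card ?_).trans hY
      intro t ht
      rw [mem_filter] at ht ⊢
      refine ⟨ht.1, fun h4 => ht.2 ⟨fun _ => hY, fun _ => h4⟩⟩
    · rcases h Y with h5 | h5
      · refine (card_le_card ?_).trans h5
        intro t ht
        rw [mem_filter] at ht ⊢
        refine ⟨ht.1, ?_⟩
        by_contra h4
        exact ht.2 ⟨fun h6 => absurd h6 h4, fun h6 => absurd h6 hY⟩
      · exact absurd h5 hY
  · rw [smul_eq_mul, Finset.card_univ]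

theorem gen : S_GEN := by
  intro d
  obtain ⟨N, hN⟩ : ∃ N : ℕ, N = Fintype.card (Finset (Equiv.Perm (Fin d))) := ⟨_, rfl⟩
  refine ⟨4 * N, ?_⟩
  intro Γ _ g S E H1 H2 hlarge
  -- the orbit of `1`
  set X : ℤ → ℤ → Finset (Equiv.Perm (Fin d)) := fun s s' =>
    univ.filter fun σ => ∃ γ : Γ, σ = g s' γ * (g s γ)⁻¹ with hX
  have memX : ∀ s s' σ, σ ∈ X s s' ↔ ∃ γ : Γ, σ = g s' γ * (g s γ)⁻¹ := by
    intro s s' σ; simp [hX]
  have X1 : ∀ s s', Stab g (X s s') s s' := by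
    intro s s' γ σ hσ
    rw [memX] at hσ ⊢
    obtain ⟨δ, rfl⟩ := hσ
    refine ⟨γ * δ, ?_⟩
    rw [map_mul, map_mul]
    group
  have X2 : ∀ s s', (1 : Equiv.Perm (Fin d)) ∈ X s s' := by
    intro s s'
    rw [memX]
    exact ⟨1, by simp⟩
  have X3 : ∀ s s' Y, Stab g Y s s' → (1 : Equiv.Perm (Fin d)) ∈ Y → X s s' ⊆ Y := by
    intro s s' Y hY h1 σ hσ
    rw [memX] at hσ
    obtain ⟨γ, rfl⟩ := hσ
    have := hY γ 1 h1
    rwa [mul_one] at this
  have hN0 : 0 < N := by rw [hN]; exact Fintype.card_pos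
  have hNE : N * E ≤ N * (E + 1) := Nat.mul_le_mul_left _ (Nat.le_succ _)
  have hNE1 : 0 < N * (E + 1) := Nat.mul_pos hN0 (Nat.succ_pos _)
  have hlarge' : 4 * (N * (E + 1)) < S.card := by rw [← mul_assoc]; exact hlarge
  have F1 : ∀ s' : ℤ, ∃ Y₀ : Finset (Equiv.Perm (Fin d)), s' ∈ S →
      (S.filter fun s => X s s' ≠ Y₀).card ≤ N * E := by
    intro s'
    by_cases hs' : s' ∈ S
    · obtain ⟨Y₀, hY₀⟩ := least_const (1 : Equiv.Perm (Fin d)) (fun Y s => Stab g Y s s') S E (H1 s' hs')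
        (fun s => X s s') (fun s => X1 s s') (fun s => X2 s s') (fun s => X3 s s')
      rw [← hN] at hY₀
      exact ⟨Y₀, fun _ => hY₀ _ (filter_subset _ _) fun t ht => (mem_filter.1 ht).2⟩
    · exact ⟨∅, fun h => absurd h hs'⟩
  choose Yf hYf using F1
  -- averaging
  have hne : S.Nonempty := by
    rw [← Finset.card_pos]; omega
  have hsum : ∑ s ∈ S, (S.filter fun s' => X s s' ≠ Yf s').card ≤ ∑ _s ∈ S, N * E := by
    have e1 : ∑ s ∈ S, (S.filter fun s' => X s s' ≠ Yf s').card =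
        ∑ s' ∈ S, (S.filter fun s => X s s' ≠ Yf s').card := by
      simp only [Finset.card_filter]
      exact Finset.sum_comm
    rw [e1]
    exact Finset.sum_le_sum fun s' hs' => hYf s' hs'
  obtain ⟨s₀, hs₀, hs₀'⟩ := Finset.exists_le_of_sum_le hne hsum
  obtain ⟨Y, hY'⟩ := least_const (1 : Equiv.Perm (Fin d)) (fun Y s' => Stab g Y s₀ s') S E (H2 s₀ hs₀)
    (fun s' => X s₀ s') (fun s' => X1 s₀ s') (fun s' => X2 s₀ s') (fun s' => X3 s₀ s')
  rw [← hN] at hY'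
  have hY : (S.filter fun s' => X s₀ s' ≠ Y).card ≤ N * E :=
    hY' _ (filter_subset _ _) fun t ht => (mem_filter.1 ht).2
  set S₁ : Finset ℤ := S.filter fun s' => Yf s' = Y with hS₁
  have hS₁c : (S \ S₁).card ≤ 2 * (N * E) := by
    have hsub : S \ S₁ ⊆ (S.filter fun s' => X s₀ s' ≠ Yf s') ∪ (S.filter fun s' => X s₀ s' ≠ Y) := by
      intro s hs
      rw [mem_sdiff, hS₁, mem_filter] at hs
      rw [mem_union, mem_filter, mem_filter]
      by_contra hcon
      push Not at hcon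
      have h1 := hcon.1 hs.1
      have h2 := hcon.2 hs.1
      exact hs.2 ⟨hs.1, by rw [← h1, h2]⟩
    refine (card_le_card hsub).trans ((card_union_le _ _).trans ?_)
    omega
  have hS₁sub : S₁ ⊆ S := filter_subset _ _
  have bad : ∀ s' ∈ S₁, (S.filter fun s => X s s' ≠ Y).card ≤ N * E := by
    intro s' hs'
    rw [hS₁, mem_filter] at hs'
    have := hYf s' hs'.1
    rwa [hs'.2] at this
  have hS₁card : 2 * (N * (E + 1)) < S₁.card := by
    have := Finset.card_sdiff_add_card_eq_card hS₁sub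
    omega
  -- choice of `c`
  have pick : ∀ a ∈ S₁, ∀ b ∈ S₁, ∃ c, X c a = Y ∧ X c b = Y := by
    intro a ha b hb
    by_contra hcon
    push Not at hcon
    have hsub : S ⊆ (S.filter fun s => X s a ≠ Y) ∪ (S.filter fun s => X s b ≠ Y) := by
      intro c hc
      rw [mem_union, mem_filter, mem_filter]
      by_cases h1 : X c a = Y
      · exact Or.inr ⟨hc, hcon c h1⟩
      · exact Or.inl ⟨hc, h1⟩
    have h2 := (card_le_card hsub).trans (card_union_le _ _)
    have h3 := bad a ha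
    have h4 := bad b hb
    omega
  have stabY : ∀ {c a : ℤ}, X c a = Y → ∀ γ : Γ, ∀ σ ∈ Y, g a γ * σ * (g c γ)⁻¹ ∈ Y := by
    intro c a hca γ σ hσ
    have := X1 c a
    rw [hca] at this
    exact this γ σ hσ
  have diffY : ∀ {c a : ℤ}, X c a = Y → ∀ γ : Γ, g a γ * (g c γ)⁻¹ ∈ Y := by
    intro c a hca γ
    rw [← hca, memX]
    exact ⟨γ, rfl⟩
  have hne₁ : S₁.Nonempty := by rw [← Finset.card_pos]; omega
  obtain ⟨b, hb⟩ := hne₁
  obtain ⟨a, ha, hab⟩ : ∃ a ∈ S₁, X a b = Y := by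
    by_contra hcon
    push Not at hcon
    have hsub : S₁ ⊆ S.filter fun s => X s b ≠ Y := by
      intro c hc
      rw [mem_filter]
      exact ⟨hS₁sub hc, hcon c hc⟩
    have h2 := card_le_card hsub
    have h3 := bad b hb
    omega
  have oneY : (1 : Equiv.Perm (Fin d)) ∈ Y := by rw [← hab]; exact X2 a b
  have mulY : ∀ y ∈ Y, ∀ y' ∈ Y, y * y' ∈ Y := by
    intro y hy y' hy'
    obtain ⟨c, hca, hcb⟩ := pick a ha b hb
    have hy2 := hy
    rw [← hab, memX] at hy2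
    obtain ⟨γ, rfl⟩ := hy2
    have h1 := stabY hca γ⁻¹ y' hy'
    have h2 := stabY hcb γ _ h1
    have h3 : g b γ * (g a γ⁻¹ * y' * (g c γ⁻¹)⁻¹) * (g c γ)⁻¹ = g b γ * (g a γ)⁻¹ * y' := by
      rw [map_inv, map_inv]
      group
    rwa [h3] at h2
  have powY : ∀ y ∈ Y, ∀ n : ℕ, y ^ n ∈ Y := by
    intro y hy n
    induction n with
    | zero => simpa using oneY
    | succ n ih => rw [pow_succ]; exact mulY _ ih _ hy
  have invY : ∀ y ∈ Y, y⁻¹ ∈ Y := by
    intro y hy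
    have h1 : y⁻¹ = y ^ (orderOf y - 1) := by
      have h2 : y ^ (orderOf y - 1) * y = 1 := by
        rw [← pow_succ, Nat.sub_add_cancel (orderOf_pos y), pow_orderOf_eq_one]
      exact (eq_inv_of_mul_eq_one_left h2).symm
    rw [h1]
    exact powY y hy _
  let YY : Subgroup (Equiv.Perm (Fin d)) :=
    { carrier := {σ | σ ∈ Y}
      mul_mem' := fun {x y} hx hy => mulY x hx y hy
      one_mem' := oneY
      inv_mem' := fun {x} hx => invY x hx }
  have memYY : ∀ σ, σ ∈ YY ↔ σ ∈ Y := fun σ => Iff.rfl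
  refine ⟨YY, S₁, hS₁sub, ?_, ?_, ?_, ?_⟩
  · rw [mul_assoc]; omega
  · intro γ s hs s' hs'
    obtain ⟨c, h1, h2⟩ := pick s hs s' hs'
    have h3 := mulY _ (diffY h2 γ) _ (invY _ (diffY h1 γ))
    rw [memYY]
    have h4 : g s' γ * (g c γ)⁻¹ * (g s γ * (g c γ)⁻¹)⁻¹ = g s' γ * (g s γ)⁻¹ := by group
    rwa [h4] at h3
  · intro γ s hs σ hσ
    rw [memYY] at hσ ⊢
    obtain ⟨c, h1, -⟩ := pick s hs s hs
    have h3 := mulY _ (stabY h1 γ σ hσ) _ (invY _ (diffY h1 γ))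
    have h4 : g s γ * σ * (g c γ)⁻¹ * (g s γ * (g c γ)⁻¹)⁻¹ = g s γ * σ * (g s γ)⁻¹ := by group
    rwa [h4] at h3
  · intro s' hs'
    have hsub : (S₁.filter fun s => ¬ ∀ σ ∈ YY, ∃ γ : Γ, σ = g s' γ * (g s γ)⁻¹) ⊆
        S.filter fun s => X s s' ≠ Y := by
      intro s hs
      rw [mem_filter] at hs ⊢
      refine ⟨hS₁sub hs.1, fun hcon => hs.2 ?_⟩
      intro σ hσ
      rw [memYY, ← hcon, memX] at hσ
      exact hσ
    refine (card_le_card hsub).trans ((bad s' hs').trans ?_)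
    rw [mul_assoc]; omega

end Pool.Agent.Helper74.EP
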