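import Pool.Agent.Helper20.EP.Spec2

/-!
# EP, part PSD: the inequality behind the duality
-/

set_option autoImplicit false

namespace Pool.Agent.Helper74.EP

open Pool.Agent.Helper20.EP
open Finset
open scoped Classical

/-- number of fixed points -/
noncomputable def fx {d : ℕ} (g : Equiv.Perm (Fin d)) : ℝ := (Nat.card {i : Fin d // g i = i} : ℝ) - 1

lemma fx_eq {d : ℕ} (g : Equiv.Perm (Fin d)) : fx g = ∑ i, (if g i = i then (1 : ℝ) else 0) - 1 := by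
  unfold fx
  rw [Nat.card_eq_fintype_card, Fintype.card_subtype, Finset.sum_boole]

lemma fx_conj {d : ℕ} (g σ : Equiv.Perm (Fin d)) : fx (σ * g * σ⁻¹) = fx g := by
  rw [fx_eq, fx_eq]
  congr 1
  refine Fintype.sum_equiv σ⁻¹ _ _ fun i => ?_
  simp only [Equiv.Perm.mul_apply]
  refine if_congr ?_ rfl rfl
  constructor
  · intro h
    apply σ.injective
    rw [h]; simp
  · intro h
    rw [h]; simp

lemma fx_le {d : ℕ} (hd : 1 ≤ d) (g : Equiv.Perm (Fin d)) : fx g ^ 2 ≤ (d : ℝ) ^ 2 := by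
  have h1 : (0 : ℝ) ≤ ∑ i, (if g i = i then (1 : ℝ) else 0) :=
    Finset.sum_nonneg fun i _ => by split <;> norm_num
  have h2 : ∑ i, (if g i = i then (1 : ℝ) else 0) ≤ d := by
    refine (Finset.sum_le_sum (g := fun _ => (1 : ℝ)) fun i _ => ?_).trans (by simp)
    split <;> norm_num
  have hd' : (1 : ℝ) ≤ d := by exact_mod_cast hd
  rw [fx_eq]
  apply sq_le_sq'
  · linarith
  · linarith

theorem psd : S_PSD := by
  intro d Y T m h hd htr hm hsum hcos hnorm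
  -- a member of `T`
  obtain ⟨s₀, hs₀⟩ : T.Nonempty := by
    by_contra hcon
    rw [Finset.not_nonempty_iff_eq_empty] at hcon
    rw [hcon] at hsum
    simp at hsum
  set Yf : Finset (Equiv.Perm (Fin d)) := univ.filter fun σ => σ ∈ Y with hYf
  have memY : ∀ σ : Equiv.Perm (Fin d), σ ∈ Yf ↔ σ ∈ Y := fun σ => by simp [hYf]
  set c : ℝ := (Yf.card : ℝ) with hc
  have hc0 : 0 < c := by
    have : (1 : Equiv.Perm (Fin d)) ∈ Yf := (memY 1).2 Y.one_mem
    have h1 : 0 < Yf.card := Finset.card_pos.2 ⟨1, this⟩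
    rw [hc]; exact_mod_cast h1
  -- the coset
  set K : Finset (Equiv.Perm (Fin d)) := univ.filter fun g => g * (h s₀)⁻¹ ∈ Y with hK
  have memK : ∀ g : Equiv.Perm (Fin d), g ∈ K ↔ g * (h s₀)⁻¹ ∈ Y := fun g => by simp [hK]
  have conjK : ∀ s ∈ T, ∀ σ ∈ Yf, σ * h s * σ⁻¹ ∈ K := by
    intro s hs σ hσ
    rw [memK]
    rw [memY] at hσ
    have h1 : h s * σ⁻¹ * (h s)⁻¹ ∈ Y := hnorm s hs _ (Y.inv_mem hσ)
    have h2 : h s * (h s₀)⁻¹ ∈ Y := hcos s₀ hs₀ s hs
    have h3 := Y.mul_mem (Y.mul_mem hσ h1) h2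
    have h4 : σ * h s * σ⁻¹ * (h s₀)⁻¹ = σ * (h s * σ⁻¹ * (h s)⁻¹) * (h s * (h s₀)⁻¹) := by group
    rw [h4]; exact h3
  have hKY : ∀ F : Equiv.Perm (Fin d) → ℝ, ∑ g ∈ K, F g = ∑ σ ∈ Yf, F (σ * h s₀) := by
    intro F
    refine Finset.sum_bij' (fun g _ => g * (h s₀)⁻¹) (fun σ _ => σ * h s₀) ?_ ?_ ?_ ?_ ?_
    · intro g hg; rw [memY]; exact (memK g).1 hg
    · intro σ hσ; rw [memK]; simpa using (memY σ).1 hσ
    · intro g _; simp
    · intro σ _; simp
    · intro g _; simp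
  have hKc : ∑ g ∈ K, (1 : ℝ) = c := by
    rw [hKY]; simp [hc]
  -- transitivity
  have hcount : ∀ i j : Fin d, (d : ℝ) * ∑ σ ∈ Yf, (if σ j = i then (1 : ℝ) else 0) = c := by
    intro i j
    have h1 : ∀ i' : Fin d, ∑ σ ∈ Yf, (if σ j = i' then (1 : ℝ) else 0) =
        ∑ σ ∈ Yf, (if σ j = i then (1 : ℝ) else 0) := by
      intro i'
      obtain ⟨τ, hτ, hτi⟩ := htr i' i
      refine Finset.sum_bij' (fun σ _ => τ * σ) (fun σ _ => τ⁻¹ * σ) ?_ ?_ ?_ ?_ ?_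
      · intro σ hσ; rw [memY] at hσ ⊢; exact Y.mul_mem hτ hσ
      · intro σ hσ; rw [memY] at hσ ⊢; exact Y.mul_mem (Y.inv_mem hτ) hσ
      · intro σ _; simp
      · intro σ _; simp
      · intro σ _
        refine if_congr ?_ rfl rfl
        rw [Equiv.Perm.mul_apply, ← hτi]
        exact τ.injective.eq_iff.symm
    have h2 : ∑ i' : Fin d, ∑ σ ∈ Yf, (if σ j = i' then (1 : ℝ) else 0) = c := by
      rw [Finset.sum_comm]
      simp [hc]
    rw [Finset.sum_congr rfl fun i' _ => h1 i'] at h2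
    simpa using h2
  have hd0 : (0 : ℝ) < d := by exact_mod_cast hd
  have hf0 : ∑ g ∈ K, fx g = 0 := by
    rw [hKY]
    simp only [fx_eq]
    rw [Finset.sum_sub_distrib, Finset.sum_comm]
    have h1 : ∀ i : Fin d, ∑ σ ∈ Yf, (if (σ * h s₀) i = i then (1 : ℝ) else 0) = c / d := by
      intro i
      rw [eq_div_iff hd0.ne', mul_comm]
      exact hcount i (h s₀ i)
    rw [Finset.sum_congr rfl fun i _ => h1 i]
    simp only [Finset.sum_const, Finset.card_univ, Fintype.card_fin, nsmul_eq_mul, mul_one]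
    field_simp
    simp [hc]
  -- the function `u`
  set u : Equiv.Perm (Fin d) → ℝ := fun g => ∑ s ∈ T, m s * ∑ σ ∈ Yf, (if σ * h s * σ⁻¹ = g then (1 : ℝ) else 0) with hu
  have hA : ∀ F : Equiv.Perm (Fin d) → ℝ, ∑ g ∈ K, u g * F g = ∑ s ∈ T, m s * ∑ σ ∈ Yf, F (σ * h s * σ⁻¹) := by
    intro F
    simp only [hu, Finset.sum_mul]
    rw [Finset.sum_comm]
    refine Finset.sum_congr rfl fun s hs => ?_
    simp only [mul_assoc]
    rw [← Finset.mul_sum]
    congr 1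
    simp only [Finset.sum_mul]
    rw [Finset.sum_comm]
    refine Finset.sum_congr rfl fun σ hσ => ?_
    have hmem := conjK s hs σ hσ
    rw [mul_assoc] at hmem
    rw [Finset.sum_eq_single (σ * (h s * σ⁻¹))]
    · simp
    · intro g _ hg
      rw [if_neg (Ne.symm hg), zero_mul]
    · intro hcon; exact absurd hmem hcon
  have hconj : ∀ τ ∈ Yf, ∀ g : Equiv.Perm (Fin d), u (τ * g * τ⁻¹) = u g := by
    intro τ hτ g
    simp only [hu]
    refine Finset.sum_congr rfl fun s _ => ?_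
    congr 1
    rw [memY] at hτ
    refine Finset.sum_bij' (fun σ _ => τ⁻¹ * σ) (fun σ _ => τ * σ) ?_ ?_ ?_ ?_ ?_
    · intro σ hσ; rw [memY] at hσ ⊢; exact Y.mul_mem (Y.inv_mem hτ) hσ
    · intro σ hσ; rw [memY] at hσ ⊢; exact Y.mul_mem hτ hσ
    · intro σ _; simp
    · intro σ _; simp
    · intro σ _
      refine if_congr ?_ rfl rfl
      constructor
      · intro h1
        have h2 : τ⁻¹ * σ * h s * (τ⁻¹ * σ)⁻¹ = τ⁻¹ * (σ * h s * σ⁻¹) * τ := by group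
        rw [h2, h1]; group
      · intro h1
        have h2 : σ * h s * σ⁻¹ = τ * (τ⁻¹ * σ * h s * (τ⁻¹ * σ)⁻¹) * τ⁻¹ := by group
        rw [h2, h1]
  set R : ℝ := ∑ s ∈ T, ∑ s' ∈ T, m s * m s' *
        (Nat.card {σ : Y // h s' * (σ : Equiv.Perm (Fin d)) = σ * h s} : ℝ) with hR
  have hcard : ∀ s s' : ℤ, (Nat.card {σ : Y // h s' * (σ : Equiv.Perm (Fin d)) = σ * h s} : ℝ) =
      ∑ σ ∈ Yf, (if σ * h s * σ⁻¹ = h s' then (1 : ℝ) else 0) := by
    intro s s'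
    rw [Finset.sum_boole]
    congr 1
    have e : {σ : Y // h s' * (σ : Equiv.Perm (Fin d)) = σ * h s} ≃
        {σ : Equiv.Perm (Fin d) // σ ∈ (Yf.filter fun σ => σ * h s * σ⁻¹ = h s')} :=
      { toFun := fun σ => ⟨σ.1.1, by
          rw [mem_filter, memY]
          refine ⟨σ.1.2, ?_⟩
          rw [mul_inv_eq_iff_eq_mul]
          exact σ.2.symm⟩
        invFun := fun σ => ⟨⟨σ.1, (memY _).1 (mem_filter.1 σ.2).1⟩, by
          have := (mem_filter.1 σ.2).2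
          rw [mul_inv_eq_iff_eq_mul] at this
          exact this.symm⟩
        left_inv := fun σ => rfl
        right_inv := fun σ => rfl }
    rw [Nat.card_congr e, Nat.card_eq_fintype_card, Fintype.card_coe]
  have e1 : ∑ g ∈ K, u g * 1 = c := by
    rw [hA]
    simp only [Finset.sum_const, nsmul_eq_mul, mul_one]
    rw [← Finset.sum_mul, hsum, one_mul]
  set q : ℝ := ∑ s ∈ T, m s * ((Nat.card {i : Fin d // h s i = i} : ℝ) - 1) with hq
  have e2 : ∑ g ∈ K, u g * fx g = c * q := by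
    rw [hA]
    have : ∀ s ∈ T, m s * ∑ σ ∈ Yf, fx (σ * h s * σ⁻¹) = c * (m s * fx (h s)) := by
      intro s _
      simp only [fx_conj, Finset.sum_const, nsmul_eq_mul]
      rw [hc]; ring
    rw [Finset.sum_congr rfl this, ← Finset.mul_sum]
    rfl
  have e3 : ∑ g ∈ K, u g * u g = c * R := by
    rw [hA]
    have : ∀ s ∈ T, m s * ∑ σ ∈ Yf, u (σ * h s * σ⁻¹) = c * (m s * u (h s)) := by
      intro s _
      rw [Finset.sum_congr rfl fun σ hσ => hconj σ hσ (h s)]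
      simp only [Finset.sum_const, nsmul_eq_mul]
      rw [hc]; ring
    rw [Finset.sum_congr rfl this, ← Finset.mul_sum]
    congr 1
    rw [hR, Finset.sum_comm]
    refine Finset.sum_congr rfl fun s _ => ?_
    simp only [hu]
    rw [Finset.mul_sum]
    refine Finset.sum_congr rfl fun s' _ => ?_
    rw [hcard s' s]
    ring
  have e4 : ∑ g ∈ K, fx g * fx g ≤ c * (d : ℝ) ^ 2 := by
    rw [← hKc, Finset.sum_mul]
    refine Finset.sum_le_sum fun g _ => ?_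
    have := fx_le hd g
    nlinarith
  have e5 : 0 ≤ ∑ g ∈ K, (u g - 1 - q / (d : ℝ) ^ 2 * fx g) ^ 2 := Finset.sum_nonneg fun g _ => sq_nonneg _
  have e6 : ∑ g ∈ K, (u g - 1 - q / (d : ℝ) ^ 2 * fx g) ^ 2 =
      ∑ g ∈ K, u g * u g - 2 * ∑ g ∈ K, u g * 1 - 2 * (q / (d : ℝ) ^ 2) * ∑ g ∈ K, u g * fx g +
      ∑ g ∈ K, (1 : ℝ) + 2 * (q / (d : ℝ) ^ 2) * ∑ g ∈ K, fx g +
      (q / (d : ℝ) ^ 2) ^ 2 * ∑ g ∈ K, fx g * fx g := by
    simp only [Finset.mul_sum, ← Finset.sum_sub_distrib, ← Finset.sum_add_distrib]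
    refine Finset.sum_congr rfl fun g _ => ?_
    ring
  rw [e6, e1, e2, e3, hKc, hf0] at e5
  have e7 : (q / (d : ℝ) ^ 2) ^ 2 * ∑ g ∈ K, fx g * fx g ≤ c * (q ^ 2 / (d : ℝ) ^ 2) := by
    refine (mul_le_mul_of_nonneg_left e4 (sq_nonneg _)).trans (le_of_eq ?_)
    field_simp
  have e8 : 2 * (q / (d : ℝ) ^ 2) * (c * q) = 2 * (c * (q ^ 2 / (d : ℝ) ^ 2)) := by ring
  rw [e8] at e5
  have e9 : 0 ≤ c * (R - 1 - q ^ 2 / (d : ℝ) ^ 2) := by linarith
  have e10 : 0 ≤ R - 1 - q ^ 2 / (d : ℝ) ^ 2 := by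
    by_contra hcon
    rw [not_le] at hcon
    have := mul_neg_of_pos_of_neg hc0 hcon
    linarith
  linarith

end Pool.Agent.Helper74.EP
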